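import Pool.Agent.H25.FaMain

/-!
# Fourier and Hausdorff dimension of sets avoiding approximate arithmetic progressions

For every integer `k ≥ 3` and every `ε ∈ (0, 1)`, the supremum of the Hausdorff dimensions of the
bounded sets `E ⊆ ℝ` that `ε`-avoid `k`-term arithmetic progressions equals the supremum of the
Fourier dimensions of the Borel sets `E ⊆ ℝ` that `ε`-avoid `k`-term arithmetic progressions.

`Avoids`, `ft` and `dimF` are defined in `Pool.Agent.H25.FaDefs`; `dimH` is Mathlib's Hausdorff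
dimension.
-/

open MeasureTheory
open scoped ENNReal

namespace Pool.Agent.Results.MP_295b98_an.FourierEqualsHausdorff

open Pool.Agent.H25.FA

/-- Sanity check: for a nonempty set, `Avoids k ε E` is the condition
`sup_{p ∈ P} inf_{x ∈ E} |x - p| ≥ ε λ` for every `k`-term arithmetic progression `P` with gap
`λ > 0`. -/
theorem avoids_iff {k : ℕ} (hk : 1 ≤ k) {ε : ℝ} {E : Set ℝ} (hE : E.Nonempty) :
    Avoids k ε E ↔ ∀ a lam : ℝ, 0 < lam →
      ε * lam ≤ ⨆ i : Fin k, Metric.infDist (a + (i : ℕ) * lam) E := by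
  have : Nonempty (Fin k) := ⟨⟨0, hk⟩⟩
  constructor
  · intro h a lam hlam
    obtain ⟨i, hi, H⟩ := h a lam hlam
    have h1 : ε * lam ≤ Metric.infDist (a + ((⟨i, hi⟩ : Fin k) : ℕ) * lam) E := by
      rw [Metric.le_infDist hE]
      intro y hy
      rw [Real.dist_eq, abs_sub_comm]
      exact H y hy
    exact h1.trans (le_ciSup (f := fun i : Fin k => Metric.infDist (a + (i : ℕ) * lam) E)
      (Set.finite_range _).bddAbove ⟨i, hi⟩)
  · intro h a lam hlam
    obtain ⟨i, hi⟩ := exists_eq_ciSup_of_finite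
      (f := fun i : Fin k => Metric.infDist (a + (i : ℕ) * lam) E)
    refine ⟨i, i.2, fun x hx => ?_⟩
    have h1 := h a lam hlam
    rw [← hi, Metric.le_infDist hE] at h1
    have h2 := h1 hx
    rwa [Real.dist_eq, abs_sub_comm] at h2

/-- Sanity check: the empty set avoids everything, singletons avoid for `k ≥ 3` and `ε ≤ 1`. -/
theorem avoids_examples {k : ℕ} (hk : 3 ≤ k) {ε : ℝ} (hε : ε ≤ 1) (x : ℝ) :
    Avoids k ε ∅ ∧ Avoids k ε {x} := by
  refine ⟨fun a lam _ => ⟨0, by omega, by simp⟩, fun a lam hlam => ?_⟩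
  by_contra hcon
  push Not at hcon
  obtain ⟨_, rfl, h1⟩ := hcon 0 (by omega)
  obtain ⟨_, rfl, h2⟩ := hcon 2 (by omega)
  rw [abs_lt] at h1 h2
  push_cast at h1 h2
  nlinarith [h1.1, h1.2, h2.1, h2.2]

/-- Sanity check: for a Borel set the Fourier dimension is at most the Hausdorff dimension. -/
theorem dimF_le {E : Set ℝ} (hE : MeasurableSet E) : dimF E ≤ dimH E := dimF_le_dimH hE

/-- **Main theorem.** For all `k ≥ 3` and `ε ∈ (0, 1)`: the supremum `d(k, ε)` of the Hausdorff
dimensions of bounded sets which `ε`-avoid `k`-APs equals the supremum of the Fourier dimensions of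
Borel sets which `ε`-avoid `k`-APs. -/
theorem result (k : ℕ) (hk : 3 ≤ k) (ε : ℝ) (hε0 : 0 < ε) (hε1 : ε < 1) :
    sSup {d : ℝ≥0∞ | ∃ E : Set ℝ, Bornology.IsBounded E ∧ Avoids k ε E ∧ d = dimH E} =
      sSup {d : ℝ≥0∞ | ∃ E : Set ℝ, MeasurableSet E ∧ Avoids k ε E ∧ d = dimF E} :=
  main hk hε0 hε1

end Pool.Agent.Results.MP_295b98_an.FourierEqualsHausdorff
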